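import Pool.Agent.TH789.MT.Family

set_option autoImplicit false
set_option linter.unusedSectionVars false

namespace Pool.Agent.TH789.MT

open Matrix
open scoped ComplexOrder MatrixOrder

variable {ι : Type*} [Fintype ι] [DecidableEq ι]
variable {κ : Type*} [Fintype κ] [DecidableEq κ]

/-- indicator of `[t, ∞)` -/
noncomputable def ind (t x : ℝ) : ℝ := if t ≤ x then 1 else 0

lemma tau_rsmul (c : ℝ) (X : Matrix ι ι ℂ) : tau (c • X) = c * tau X := by
  unfold tau
  rw [Matrix.trace_smul]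
  simp

lemma ind_mul_self (t x : ℝ) : ind t x * ind t x = ind t x := by
  unfold ind; split_ifs <;> simp

lemma ind_nonneg (t x : ℝ) : 0 ≤ ind t x := by
  unfold ind; split_ifs <;> simp

lemma IsPr_ind (t : ℝ) (A : Matrix ι ι ℂ) : IsPr (F (ind t) A) := by
  refine ⟨F_herm _ _, ?_⟩
  rw [← F_mul]
  congr 1
  funext x
  exact ind_mul_self t x

/-- the trace norm -/
noncomputable def traceNorm (X : Matrix ι ι ℂ) : ℝ := (CFC.sqrt (Xᴴ * X)).trace.re

lemma sqrt_herm {H : Matrix ι ι ℂ} (hH : H.IsHermitian) :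
    CFC.sqrt (Hᴴ * H) = F (fun x => |x|) H := by
  apply CFC.sqrt_unique
  · rw [← F_mul]
    have : (fun x : ℝ => |x| * |x|) = fun x => x * x := by
      funext x; exact abs_mul_abs_self x
    rw [this, F_mul, F_id hH, hH.eq]
  · exact (F_psd fun x _ => abs_nonneg x).nonneg

/-- the Helstrom projection -/
lemma helstrom {A B : Matrix ι ι ℂ} (hA : A.IsHermitian) (hB : B.IsHermitian) :
    ∃ T : Matrix ι ι ℂ, IsPr T ∧
      tau (A + B) - traceNorm (A - B) = 2 * tau (A * (1 - T)) + 2 * tau (B * T) := by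
  refine ⟨F (ind 0) (A - B), IsPr_ind _ _, ?_⟩
  have h1 : traceNorm (A - B) = tau (F (fun x => |x|) (A - B)) := by
    unfold traceNorm tau
    rw [sqrt_herm (hA.sub hB)]
  have h2 : F (fun x => |x|) (A - B) =
      (A - B) * F (ind 0) (A - B) + (A - B) * F (ind 0) (A - B) - (A - B) := by
    have e : (fun x : ℝ => |x|) = fun x => (x * ind 0 x + x * ind 0 x) - x := by
      funext x
      unfold ind
      split_ifs with h
      · rw [abs_of_nonneg h]; ring
      · rw [abs_of_neg (not_le.1 h)]; ring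
    rw [e, F_sub, F_add, F_mul, F_id (hA.sub hB)]
  rw [h1, h2]
  simp only [tau_sub, tau_add, sub_mul, mul_sub, mul_one]
  ring

lemma overlap {P Q T : Matrix ι ι ℂ} (hP : IsPr P) (hQ : IsPr Q) (hT : IsPr T) :
    tau (P * Q) ≤ 2 * tau ((1 - T) * P) + 2 * tau (T * Q) := by
  have e : P * Q = P * (1 - T) * Q + P * (T * Q) := by
    rw [Matrix.mul_assoc, ← mul_add, ← add_mul]
    congr 1
    have : (1 - T) + T = (1 : Matrix ι ι ℂ) := by abel
    rw [this, one_mul]
  rw [hP.tau_mul hQ, hT.tau_mul hQ, tau_comm (1 - T), hP.tau_mul hT.compl, e]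
  refine (hs_add_le _ _).trans ?_
  have h1 := hs_mul_right hQ (P * (1 - T))
  have h2 := hs_mul_left hP (T * Q)
  linarith

/-! ### scalar inequalities -/

lemma scalar_lower {Λ R : ℝ} (hΛ : 0 < Λ) (hR : 2 ≤ R) (M : ℕ) {x : ℝ} (hx : 0 ≤ x) :
    ∑ m ∈ Finset.range M, Λ / R ^ (m + 1) * ind (Λ / R ^ (m + 1)) x ≤ 2 * x := by
  have hR0 : 0 < R := by linarith
  have hθ : ∀ m : ℕ, 0 < Λ / R ^ m := fun m => by positivity
  have hstep : ∀ m : ℕ, Λ / R ^ (m + 1) = Λ / R ^ m / R := fun m => by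
    rw [pow_succ]; field_simp
  have hhalf : ∀ m : ℕ, Λ / R ^ (m + 1) ≤ Λ / R ^ m / 2 := fun m => by
    rw [hstep]
    exact div_le_div_of_nonneg_left (hθ m).le (by norm_num) hR
  have h1 : ∀ m ∈ Finset.range M, Λ / R ^ (m + 1) * ind (Λ / R ^ (m + 1)) x ≤
      2 * min x (Λ / R ^ (m + 1)) - 2 * min x (Λ / R ^ (m + 1 + 1)) := by
    intro m _
    have h2 := hhalf (m + 1)
    have h3 := hθ (m + 1)
    have h4 := hθ (m + 1 + 1)
    unfold ind
    split_ifs with h
    · rw [min_eq_right h, min_eq_right (by linarith)]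
      linarith
    · have : min x (Λ / R ^ (m + 1 + 1)) ≤ min x (Λ / R ^ (m + 1)) :=
        min_le_min_left x (by linarith)
      linarith
  refine (Finset.sum_le_sum h1).trans ?_
  have h5 := Finset.sum_range_sub' (fun m => 2 * min x (Λ / R ^ (m + 1))) M
  rw [h5]
  have h6 : 0 ≤ min x (Λ / R ^ (M + 1)) := le_min hx (hθ _).le
  have h7 : min x (Λ / R ^ (0 + 1)) ≤ x := min_le_left _ _
  linarith

lemma scalar_upper {Λ R : ℝ} (hΛ : 0 < Λ) (hR : 2 ≤ R) (M : ℕ) {x : ℝ} (hx : x < Λ) :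
    x ≤ R * (∑ m ∈ Finset.range M, Λ / R ^ (m + 1) * ind (Λ / R ^ (m + 1)) x) + Λ / R ^ M := by
  have hR0 : 0 < R := by linarith
  have hθ : ∀ m : ℕ, 0 < Λ / R ^ m := fun m => by positivity
  have hs : ∀ M : ℕ, 0 ≤ ∑ m ∈ Finset.range M, Λ / R ^ (m + 1) * ind (Λ / R ^ (m + 1)) x :=
    fun M => Finset.sum_nonneg fun m _ => mul_nonneg (hθ _).le (ind_nonneg _ _)
  induction M with
  | zero => simp [hx.le]
  | succ M ih =>
    rw [Finset.sum_range_succ]
    have h1 := hθ (M + 1)
    by_cases h : Λ / R ^ (M + 1) ≤ x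
    · have e : R * (Λ / R ^ (M + 1)) = Λ / R ^ M := by
        rw [pow_succ]; field_simp
      have e2 : ind (Λ / R ^ (M + 1)) x = 1 := if_pos h
      rw [e2, mul_one, mul_add, e]
      linarith
    · have h2 := hs M
      have h3 : 0 ≤ R * (∑ m ∈ Finset.range M, Λ / R ^ (m + 1) * ind (Λ / R ^ (m + 1)) x +
          Λ / R ^ (M + 1) * ind (Λ / R ^ (M + 1)) x) :=
        mul_nonneg hR0.le (add_nonneg h2 (mul_nonneg h1.le (ind_nonneg _ _)))
      push Not at h
      linarith

/-! ### operator versions -/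

lemma F_sum_tau (X A : Matrix ι ι ℂ) (M : ℕ) (w t : ℕ → ℝ) :
    tau (X * F (fun x => ∑ m ∈ Finset.range M, w m * ind (t m) x) A) =
      ∑ m ∈ Finset.range M, w m * tau (X * F (ind (t m)) A) := by
  induction M with
  | zero =>
    simp only [Finset.range_zero, Finset.sum_empty]
    have : F (fun _ : ℝ => (0 : ℝ)) A = 0 := by
      have h := F_sub (fun _ : ℝ => (0 : ℝ)) (fun _ => 0) A
      simpa using h
    rw [this, mul_zero, tau_zero]
  | succ M ih =>
    have e : (fun x => ∑ m ∈ Finset.range (M + 1), w m * ind (t m) x) =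
        fun x => (∑ m ∈ Finset.range M, w m * ind (t m) x) + w M * ind (t M) x := by
      funext x; rw [Finset.sum_range_succ]
    rw [e, F_add, F_smul, mul_add, tau_add, ih, Finset.sum_range_succ]
    congr 1
    rw [mul_smul_comm]
    simp [tau]

lemma op_lower {X A : Matrix ι ι ℂ} (hX : X.PosSemidef) (hA : A.PosSemidef) {Λ R : ℝ}
    (hΛ : 0 < Λ) (hR : 2 ≤ R) (M : ℕ) :
    ∑ m ∈ Finset.range M, Λ / R ^ (m + 1) * tau (X * F (ind (Λ / R ^ (m + 1))) A) ≤
      2 * tau (X * A) := by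
  rw [← F_sum_tau X A M (fun m => Λ / R ^ (m + 1)) (fun m => Λ / R ^ (m + 1))]
  have h := tau_mul_F_mono (A := A) hX (f := fun x => ∑ m ∈ Finset.range M,
    Λ / R ^ (m + 1) * ind (Λ / R ^ (m + 1)) x) (g := fun x => 2 * x)
    (fun x hx => scalar_lower hΛ hR M (spec_nonneg hA hx))
  refine h.trans (le_of_eq ?_)
  rw [F_smul, F_id hA.1, mul_smul_comm]
  simp [tau]

lemma op_upper {X A : Matrix ι ι ℂ} (hX : X.PosSemidef) (hA : A.PosSemidef) {Λ R : ℝ}
    (hΛ : 0 < Λ) (hR : 2 ≤ R) (hAΛ : ∀ x ∈ spectrum ℝ A, x < Λ) (M : ℕ) :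
    tau (X * A) ≤ R * (∑ m ∈ Finset.range M,
      Λ / R ^ (m + 1) * tau (X * F (ind (Λ / R ^ (m + 1))) A)) + Λ / R ^ M * tau X := by
  rw [← F_sum_tau X A M (fun m => Λ / R ^ (m + 1)) (fun m => Λ / R ^ (m + 1))]
  have h := tau_mul_F_mono (A := A) hX (f := fun x => x) (g := fun x => R * (∑ m ∈ Finset.range M,
    Λ / R ^ (m + 1) * ind (Λ / R ^ (m + 1)) x) + (Λ / R ^ M) * 1)
    (fun x hx => by
      have := scalar_upper hΛ hR M (hAΛ x hx)
      linarith)
  rw [F_id hA.1, F_add, F_smul, F_smul, F_one hA.1, mul_add, tau_add, mul_smul_comm,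
    mul_smul_comm, mul_one, tau_rsmul, tau_rsmul] at h
  exact h

/-! ### the square root bound -/

lemma sqrt_bound {A W : κ → Matrix ι ι ℂ} (hA : ∀ i, (A i).PosSemidef) (hW : OrthFam W)
    {S : Matrix ι ι ℂ} (hS : S.PosSemidef) (hSS : S * S = ∑ i, A i * A i) :
    ∑ i, tau (A i * W i) ≤ tau S := by
  obtain ⟨X, hX⟩ : ∃ X : Matrix ι ι ℂ, X = ∑ i, A i * W i := ⟨_, rfl⟩
  have hXX : X * Xᴴ = ∑ i, A i * W i * A i := by
    rw [hX, conjTranspose_sum, Finset.sum_mul]
    refine Finset.sum_congr rfl fun i _ => ?_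
    rw [Finset.mul_sum]
    rw [Finset.sum_eq_single i]
    · rw [conjTranspose_mul, (hW.pr i).herm, (hA i).1.eq, Matrix.mul_assoc,
        ← Matrix.mul_assoc (W i) (W i), (hW.pr i).idem, Matrix.mul_assoc]
    · intro j _ hj
      rw [conjTranspose_mul, (hW.pr j).herm, (hA j).1.eq, Matrix.mul_assoc,
        ← Matrix.mul_assoc (W i) (W j), hW.orth i j (Ne.symm hj)]
      simp
    · intro h; exact absurd (Finset.mem_univ i) h
  have hdiff : (S * S - X * Xᴴ).PosSemidef := by
    rw [hSS, hXX, ← Finset.sum_sub_distrib]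
    apply Matrix.posSemidef_sum
    intro i _
    have e : A i * A i - A i * W i * A i = A i * (1 - W i) * (A i)ᴴ := by
      rw [(hA i).1.eq, mul_sub, sub_mul, mul_one]
    rw [e]
    exact (hW.pr i).compl.psd.mul_mul_conjTranspose_same (A i)
  have hτ : ∑ i, tau (A i * W i) = tau X := by rw [hX, tau_sum]
  rw [hτ]
  -- perturbation
  apply le_of_forall_pos_le_add
  intro e he
  obtain ⟨η, hη, hηe⟩ : ∃ η : ℝ, 0 < η ∧ η * (Fintype.card ι : ℝ) ≤ e := by
    refine ⟨e / ((Fintype.card ι : ℝ) + 1), by positivity, ?_⟩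
    rw [div_mul_eq_mul_div, div_le_iff₀ (by positivity)]
    nlinarith [(Nat.cast_nonneg (Fintype.card ι) : (0 : ℝ) ≤ Fintype.card ι)]
  set r : ℝ → ℝ := fun x => Real.sqrt (x + η) with hr
  set q : ℝ → ℝ := fun x => (Real.sqrt (x + η))⁻¹ with hq
  have hpos : ∀ x ∈ spectrum ℝ S, 0 < x + η := fun x hx => by
    have := spec_nonneg hS hx; linarith
  have hrq : F r S * F q S = 1 := by
    rw [← F_mul, ← F_one hS.1]
    apply F_congr
    intro x hx
    simp only [hr, hq]
    exact mul_inv_cancel₀ (Real.sqrt_pos.2 (hpos x hx)).ne'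
  have hqr : F q S * F r S = 1 := by
    rw [← F_mul, ← F_one hS.1]
    apply F_congr
    intro x hx
    simp only [hr, hq]
    exact inv_mul_cancel₀ (Real.sqrt_pos.2 (hpos x hx)).ne'
  have hrr : tau (F r S * F r S) = tau S + η * Fintype.card ι := by
    have e1 : F r S * F r S = F (fun x => x + η * 1) S := by
      rw [← F_mul]
      apply F_congr
      intro x hx
      simp only [hr, mul_one]
      exact Real.mul_self_sqrt (hpos x hx).le
    rw [e1, F_add, F_smul, F_one hS.1, F_id hS.1, tau_add]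
    congr 1
    simp [tau]
  have h0 := hs_nonneg (F r S - F q S * X)
  have h1 : hs (F r S - F q S * X) =
      tau (F r S * F r S) - 2 * tau X + tau (F q S * F q S * (X * Xᴴ)) := by
    unfold hs
    rw [conjTranspose_sub, conjTranspose_mul, F_herm, F_herm, mul_sub, sub_mul, sub_mul, tau_sub,
      tau_sub, tau_sub]
    have e1 : tau (F q S * X * F r S) = tau X := by
      rw [Matrix.mul_assoc, tau_comm, Matrix.mul_assoc, hrq, mul_one]
    have e2 : tau (F r S * (Xᴴ * F q S)) = tau X := by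
      rw [← Matrix.mul_assoc, tau_comm, ← Matrix.mul_assoc, hqr, one_mul, tau_conj]
    have e3 : tau (F q S * X * (Xᴴ * F q S)) = tau (F q S * F q S * (X * Xᴴ)) := by
      rw [← Matrix.mul_assoc, tau_comm]
      simp only [Matrix.mul_assoc]
    rw [e1, e2, e3]
    ring
  have h2 : tau (F q S * F q S * (X * Xᴴ)) ≤ tau S := by
    have hq2 : (F q S * F q S).PosSemidef := by
      have := posSemidef_self_mul_conjTranspose (F q S)
      rwa [F_herm] at this
    have h3 := tau_mul_psd hq2 hdiff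
    rw [mul_sub, tau_sub] at h3
    have h4 : tau (F q S * F q S * (S * S)) ≤ tau S := by
      have e1 : F q S * F q S * (S * S) = F (fun x => (q x * q x) * (x * x)) S := by
        rw [F_mul, F_mul, F_mul, F_id hS.1]
      rw [e1]
      calc tau (F (fun x => (q x * q x) * (x * x)) S) ≤ tau (F (fun x => x) S) := by
            apply tau_F_mono
            intro x hx
            have h5 := hpos x hx
            have h6 := spec_nonneg hS hx
            simp only [hq]
            rw [← mul_inv, Real.mul_self_sqrt h5.le, inv_mul_le_iff₀ h5]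
            nlinarith
        _ = tau S := by rw [F_id hS.1]
    linarith
  rw [h1, hrr] at h0
  linarith

/-- **Dimension-free multiple hypothesis testing bound.** -/
theorem main (A : κ → Matrix ι ι ℂ) (hA : ∀ i, (A i).PosSemidef)
    (pairs : Finset (κ × κ)) (hp : ∀ i j, i ≠ j → (i, j) ∈ pairs ∨ (j, i) ∈ pairs) :
    ∑ i, tau (A i) - tau (CFC.sqrt (∑ i, A i * A i)) ≤
      8 * Kc (Fintype.card κ) ^ 2 *
        ∑ p ∈ pairs, (tau (A p.1 + A p.2) - traceNorm (A p.1 - A p.2)) := by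
  set K : ℝ := Kc (Fintype.card κ) with hK
  have hK1 : 1 ≤ K := Kc_ge _
  obtain ⟨R, hRdef⟩ : ∃ R : ℝ, R = 2 * K := ⟨_, rfl⟩
  have hR : 2 ≤ R := by rw [hRdef]; linarith
  have hR0 : 0 < R := by linarith
  -- upper bound of the spectra
  obtain ⟨Λ, hΛ, hAΛ⟩ : ∃ Λ : ℝ, 0 < Λ ∧ ∀ i, ∀ x ∈ spectrum ℝ (A i), x < Λ := by
    have hfin : (⋃ i, spectrum ℝ (A i)).Finite :=
      Set.finite_iUnion fun i => Matrix.finite_real_spectrum (A := A i)
    obtain ⟨b, hb⟩ := hfin.bddAbove
    refine ⟨max b 0 + 1, by positivity, fun i x hx => ?_⟩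
    have := hb (Set.mem_iUnion.2 ⟨i, hx⟩)
    have := le_max_left b 0
    linarith
  have hθ : ∀ m : ℕ, 0 < Λ / R ^ m := fun m => by positivity
  obtain ⟨Q, hQ⟩ : ∃ Q : ℕ → κ → Matrix ι ι ℂ, ∀ m i, Q m i = F (ind (Λ / R ^ m)) (A i) :=
    ⟨_, fun _ _ => rfl⟩
  have hQp : ∀ m i, IsPr (Q m i) := fun m i => by rw [hQ]; exact IsPr_ind _ _
  have hQ0 : ∀ i, Q 0 i = 0 := by
    intro i
    rw [hQ, pow_zero, div_one]
    have h1 : F (ind Λ) (A i) = F (fun _ => (0 : ℝ) - 0) (A i) := by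
      apply F_congr
      intro x hx
      have := hAΛ i x hx
      unfold ind
      rw [if_neg (not_le.2 this)]; simp
    rw [h1, F_sub (fun _ => (0 : ℝ)) (fun _ => 0), sub_self]
  have hmono : ∀ m i, Q m i * Q (m + 1) i = Q m i := by
    intro m i
    rw [hQ, hQ, ← F_mul]
    congr 1
    funext x
    have h1 : Λ / R ^ (m + 1) ≤ Λ / R ^ m := by
      rw [pow_succ, ← div_div]
      apply div_le_self (hθ m).le
      linarith
    unfold ind
    by_cases h : Λ / R ^ m ≤ x
    · rw [if_pos h, if_pos (h1.trans h), mul_one]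
    · rw [if_neg h, zero_mul]
  -- overlaps
  obtain ⟨ε, hε⟩ : ∃ ε : ℕ → ℝ, ∀ m, ε m = ∑ p ∈ pairs, tau (Q m p.1 * Q m p.2) :=
    ⟨_, fun _ => rfl⟩
  have hε0 : ∀ m, 0 ≤ ε m := fun m => by
    rw [hε]; exact Finset.sum_nonneg fun p _ => (hQp m p.1).tau_mul_nonneg (hQp m p.2)
  have hε1 : ∀ m i j, i ≠ j → tau (Q m i * Q m j) ≤ ε m := by
    intro m i j hij
    rw [hε]
    rcases hp i j hij with h | h
    · have h3 := Finset.single_le_sum (s := pairs) (a := (i, j))
        (f := fun p : κ × κ => tau (Q m p.1 * Q m p.2))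
        (fun p _ => (hQp m p.1).tau_mul_nonneg (hQp m p.2)) h
      exact h3
    · rw [tau_comm]
      have h3 := Finset.single_le_sum (s := pairs) (a := (j, i))
        (f := fun p : κ × κ => tau (Q m p.1 * Q m p.2))
        (fun p _ => (hQp m p.1).tau_mul_nonneg (hQp m p.2)) h
      exact h3
  -- pair bound
  have hpair : ∀ M : ℕ, ∑ m ∈ Finset.range M, Λ / R ^ (m + 1) * ε (m + 1) ≤
      2 * ∑ p ∈ pairs, (tau (A p.1 + A p.2) - traceNorm (A p.1 - A p.2)) := by
    intro M
    have e1 : ∑ m ∈ Finset.range M, Λ / R ^ (m + 1) * ε (m + 1) =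
        ∑ p ∈ pairs, ∑ m ∈ Finset.range M,
          Λ / R ^ (m + 1) * tau (Q (m + 1) p.1 * Q (m + 1) p.2) := by
      rw [Finset.sum_comm]
      refine Finset.sum_congr rfl fun m _ => ?_
      rw [hε, Finset.mul_sum]
    rw [e1, Finset.mul_sum]
    refine Finset.sum_le_sum fun p _ => ?_
    obtain ⟨T, hT, hTe⟩ := helstrom (hA p.1).1 (hA p.2).1
    rw [hTe]
    have h1 : ∀ m ∈ Finset.range M, Λ / R ^ (m + 1) * tau (Q (m + 1) p.1 * Q (m + 1) p.2) ≤
        2 * (Λ / R ^ (m + 1) * tau ((1 - T) * F (ind (Λ / R ^ (m + 1))) (A p.1))) +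
        2 * (Λ / R ^ (m + 1) * tau (T * F (ind (Λ / R ^ (m + 1))) (A p.2))) := by
      intro m _
      have h2 := overlap (hQp (m + 1) p.1) (hQp (m + 1) p.2) hT
      rw [hQ, hQ] at h2 ⊢
      have h3 := mul_le_mul_of_nonneg_left h2 (hθ (m + 1)).le
      linarith
    refine (Finset.sum_le_sum h1).trans ?_
    rw [Finset.sum_add_distrib, ← Finset.mul_sum, ← Finset.mul_sum]
    have h3 := op_lower hT.compl.psd (hA p.1) hΛ hR M
    have h4 := op_lower hT.psd (hA p.2) hΛ hR M
    rw [tau_comm (1 - T) (A p.1)] at h3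
    rw [tau_comm T (A p.2)] at h4
    linarith
  -- main estimate for every M
  have hmain : ∀ M : ℕ, ∑ i, tau (A i) - tau (CFC.sqrt (∑ i, A i * A i)) ≤
      8 * K ^ 2 * ∑ p ∈ pairs, (tau (A p.1 + A p.2) - traceNorm (A p.1 - A p.2)) +
        Λ / R ^ M * (Fintype.card κ * Fintype.card ι) := by
    intro M
    obtain ⟨W, D, h1, h2, h3, h4, h5, -⟩ := levels Q hQp hQ0 hmono ε hε0 hε1 M
    have hsq : (∑ i, A i * A i).PosSemidef := by
      apply Matrix.posSemidef_sum
      intro i _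
      have := posSemidef_self_mul_conjTranspose (A i)
      rwa [(hA i).1.eq] at this
    have hS := sqrt_bound hA h1 (S := CFC.sqrt (∑ i, A i * A i))
      (CFC.sqrt_nonneg _).posSemidef (CFC.sqrt_mul_sqrt_self _ hsq.nonneg)
    have g1 : ∑ i, tau (A i) - ∑ i, tau (A i * W i) = ∑ i, tau ((1 - W i) * A i) := by
      rw [← Finset.sum_sub_distrib]
      refine Finset.sum_congr rfl fun i _ => ?_
      rw [sub_mul, one_mul, tau_sub, tau_comm (A i)]
    have g2 : ∀ i, tau ((1 - W i) * A i) ≤ R * (∑ m ∈ Finset.range M,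
        Λ / R ^ (m + 1) * tau (Q (m + 1) i * (1 - W i))) + Λ / R ^ M * Fintype.card ι := by
      intro i
      refine (op_upper (h1.pr i).compl.psd (hA i) hΛ hR (hAΛ i) M).trans ?_
      have e1 : ∀ m, tau ((1 - W i) * F (ind (Λ / R ^ (m + 1))) (A i)) =
          tau (Q (m + 1) i * (1 - W i)) := fun m => by rw [hQ, tau_comm]
      simp only [e1]
      have e2 : tau (1 - W i) ≤ Fintype.card ι := by
        have := tau_nonneg (h1.pr i).psd
        rw [tau_sub]
        have e3 : tau (1 : Matrix ι ι ℂ) = Fintype.card ι := by simp [tau]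
        rw [e3]; linarith
      have := mul_le_mul_of_nonneg_left e2 (hθ M).le
      linarith
    have g3 : ∑ i, tau ((1 - W i) * A i) ≤
        R * (∑ m ∈ Finset.range M, Λ / R ^ (m + 1) * D (m + 1)) +
          Λ / R ^ M * (Fintype.card κ * Fintype.card ι) := by
      refine (Finset.sum_le_sum fun i _ => g2 i).trans ?_
      rw [Finset.sum_add_distrib, Finset.sum_const, Finset.card_univ, nsmul_eq_mul,
        ← Finset.mul_sum, Finset.sum_comm]
      have e1 : ∑ m ∈ Finset.range M, ∑ i, Λ / R ^ (m + 1) * tau (Q (m + 1) i * (1 - W i)) ≤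
          ∑ m ∈ Finset.range M, Λ / R ^ (m + 1) * D (m + 1) := by
        refine Finset.sum_le_sum fun m hm => ?_
        rw [← Finset.mul_sum]
        exact mul_le_mul_of_nonneg_left (h5 (m + 1) (Finset.mem_range.1 hm)) (hθ _).le
      have := mul_le_mul_of_nonneg_left e1 hR0.le
      linarith
    have g4 : ∀ N ≤ M, ∑ m ∈ Finset.range N, Λ / R ^ (m + 1) * D (m + 1) + Λ / R ^ N * D N ≤
        2 * K * ∑ m ∈ Finset.range N, Λ / R ^ (m + 1) * ε (m + 1) := by
      intro N
      induction N with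
      | zero => intro _; simp [h2]
      | succ N ih =>
        intro hN
        have g5 := ih (by omega)
        have g6 := h4 N (by omega)
        rw [Finset.sum_range_succ, Finset.sum_range_succ]
        have g7 := mul_le_mul_of_nonneg_left g6 (hθ (N + 1)).le
        have g8 : 2 * K * (Λ / R ^ (N + 1)) = Λ / R ^ N := by
          rw [← hRdef, pow_succ]; field_simp
        have g9 : 2 * (Λ / R ^ (N + 1) * D (N + 1)) ≤
            Λ / R ^ N * D N + 2 * K * (Λ / R ^ (N + 1) * ε (N + 1)) := by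
          calc 2 * (Λ / R ^ (N + 1) * D (N + 1))
              ≤ 2 * (Λ / R ^ (N + 1) * (K * (D N + ε (N + 1)))) := by linarith
            _ = (2 * K * (Λ / R ^ (N + 1))) * D N + 2 * K * (Λ / R ^ (N + 1) * ε (N + 1)) := by
                ring
            _ = _ := by rw [g8]
        linarith
    have g5 := g4 M le_rfl
    have g6 := hpair M
    have g7 : 0 ≤ Λ / R ^ M * D M := mul_nonneg (hθ M).le (h3 M)
    have g8 : ∑ m ∈ Finset.range M, Λ / R ^ (m + 1) * D (m + 1) ≤
        2 * K * (2 * ∑ p ∈ pairs, (tau (A p.1 + A p.2) - traceNorm (A p.1 - A p.2))) := by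
      have := mul_le_mul_of_nonneg_left g6 (by linarith : (0 : ℝ) ≤ 2 * K)
      linarith
    have g9 := mul_le_mul_of_nonneg_left g8 hR0.le
    have e3 : R * (2 * K * (2 * ∑ p ∈ pairs,
        (tau (A p.1 + A p.2) - traceNorm (A p.1 - A p.2)))) =
        8 * K ^ 2 * ∑ p ∈ pairs, (tau (A p.1 + A p.2) - traceNorm (A p.1 - A p.2)) := by
      rw [hRdef]; ring
    rw [e3] at g9
    linarith
  -- limit
  apply le_of_forall_pos_le_add
  intro e he
  have hlim : Filter.Tendsto (fun M : ℕ => Λ / R ^ M * ((Fintype.card κ : ℝ) * Fintype.card ι))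
      Filter.atTop (nhds 0) := by
    have h1 : Filter.Tendsto (fun M : ℕ => (R⁻¹) ^ M) Filter.atTop (nhds 0) :=
      tendsto_pow_atTop_nhds_zero_of_lt_one (by positivity)
        (inv_lt_one_of_one_lt₀ (by linarith))
    have h2 := (h1.const_mul Λ).mul_const ((Fintype.card κ : ℝ) * Fintype.card ι)
    simpa [div_eq_mul_inv] using h2
  obtain ⟨M, hM⟩ := ((hlim.eventually (gt_mem_nhds he)).exists)
  have := hmain M
  linarith

end Pool.Agent.TH789.MT
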