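import Mathlib

set_option autoImplicit false
set_option linter.unusedSectionVars false

namespace Pool.Agent.TH789.MT

open Matrix
open scoped ComplexOrder MatrixOrder

variable {ι : Type*} [Fintype ι] [DecidableEq ι]

/-- the real part of the trace -/
noncomputable def tau (X : Matrix ι ι ℂ) : ℝ := X.trace.re

lemma tau_add (X Y : Matrix ι ι ℂ) : tau (X + Y) = tau X + tau Y := by simp [tau]

lemma tau_sub (X Y : Matrix ι ι ℂ) : tau (X - Y) = tau X - tau Y := by simp [tau]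

lemma tau_neg (X : Matrix ι ι ℂ) : tau (-X) = - tau X := by simp [tau]

lemma tau_zero : tau (0 : Matrix ι ι ℂ) = 0 := by simp [tau]

lemma tau_comm (X Y : Matrix ι ι ℂ) : tau (X * Y) = tau (Y * X) := by
  unfold tau; rw [Matrix.trace_mul_comm]

lemma tau_sum {κ : Type*} (s : Finset κ) (f : κ → Matrix ι ι ℂ) :
    tau (∑ i ∈ s, f i) = ∑ i ∈ s, tau (f i) := by
  simp [tau, Matrix.trace_sum]

lemma tau_conj (X : Matrix ι ι ℂ) : tau Xᴴ = tau X := by
  unfold tau
  rw [Matrix.trace_conjTranspose]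
  simp

lemma tau_nonneg {X : Matrix ι ι ℂ} (hX : X.PosSemidef) : 0 ≤ tau X := by
  have := hX.trace_nonneg
  exact (Complex.le_def.1 this).1

/-- the square of the Hilbert-Schmidt norm -/
noncomputable def hs (X : Matrix ι ι ℂ) : ℝ := tau (X * Xᴴ)

lemma hs_nonneg (X : Matrix ι ι ℂ) : 0 ≤ hs X := tau_nonneg (posSemidef_self_mul_conjTranspose X)

lemma hs_conj (X : Matrix ι ι ℂ) : hs Xᴴ = hs X := by
  unfold hs; rw [tau_comm, conjTranspose_conjTranspose]

lemma hs_neg (X : Matrix ι ι ℂ) : hs (-X) = hs X := by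
  unfold hs; simp

lemma hs_add_le (X Y : Matrix ι ι ℂ) : hs (X + Y) ≤ 2 * hs X + 2 * hs Y := by
  have h1 : hs (X + Y) + hs (X - Y) = 2 * hs X + 2 * hs Y := by
    unfold hs
    simp only [conjTranspose_add, conjTranspose_sub, mul_add, add_mul, mul_sub, sub_mul, tau_add,
      tau_sub]
    ring
  have h2 := hs_nonneg (X - Y)
  linarith

/-- orthogonal projections -/
structure IsPr (P : Matrix ι ι ℂ) : Prop where
  herm : Pᴴ = P
  idem : P * P = P

lemma IsPr.zero : IsPr (0 : Matrix ι ι ℂ) := ⟨by simp, by simp⟩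

lemma IsPr.compl {P : Matrix ι ι ℂ} (h : IsPr P) : IsPr (1 - P) := by
  refine ⟨by simp [h.herm], ?_⟩
  rw [mul_sub, sub_mul, sub_mul, h.idem]; simp

lemma IsPr.add {P Q : Matrix ι ι ℂ} (h : IsPr P) (h' : IsPr Q) (h0 : P * Q = 0) :
    IsPr (P + Q) := by
  have h1 : Q * P = 0 := by
    have := congrArg conjTranspose h0
    rwa [conjTranspose_mul, h.herm, h'.herm, conjTranspose_zero] at this
  refine ⟨by simp [h.herm, h'.herm], ?_⟩
  rw [mul_add, add_mul, add_mul, h.idem, h'.idem, h0, h1]; simp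

lemma IsPr.psd {P : Matrix ι ι ℂ} (h : IsPr P) : P.PosSemidef := by
  have := posSemidef_self_mul_conjTranspose P
  rwa [h.herm, h.idem] at this

lemma IsPr.tau_mul {P Q : Matrix ι ι ℂ} (h : IsPr P) (h' : IsPr Q) : tau (P * Q) = hs (P * Q) := by
  unfold hs
  rw [conjTranspose_mul, h.herm, h'.herm, Matrix.mul_assoc, ← Matrix.mul_assoc Q Q P, h'.idem,
    ← Matrix.mul_assoc, tau_comm (P * Q) P, ← Matrix.mul_assoc, h.idem]

lemma IsPr.tau_mul_nonneg {P Q : Matrix ι ι ℂ} (h : IsPr P) (h' : IsPr Q) : 0 ≤ tau (P * Q) := by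
  rw [h.tau_mul h']; exact hs_nonneg _

lemma IsPr.sub_of {P Q : Matrix ι ι ℂ} (h : IsPr P) (h' : IsPr Q) (h0 : P * Q = P) :
    IsPr (Q - P) := by
  have h1 : Q * P = P := by
    have := congrArg conjTranspose h0
    rwa [conjTranspose_mul, h.herm, h'.herm] at this
  refine ⟨by simp [h.herm, h'.herm], ?_⟩
  rw [mul_sub, sub_mul, sub_mul, h.idem, h'.idem, h0, h1]; simp

/-- left multiplication by a projection decreases the HS norm -/
lemma hs_mul_left {P : Matrix ι ι ℂ} (h : IsPr P) (X : Matrix ι ι ℂ) : hs (P * X) ≤ hs X := by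
  have h1 : hs X = hs (P * X) + hs ((1 - P) * X) := by
    unfold hs
    simp only [conjTranspose_mul, conjTranspose_sub, conjTranspose_one, h.herm]
    have e1 : tau (P * X * (Xᴴ * P)) = tau (P * (X * Xᴴ)) := by
      rw [← Matrix.mul_assoc, tau_comm, ← Matrix.mul_assoc, ← Matrix.mul_assoc, h.idem,
        Matrix.mul_assoc]
    have e2 : tau ((1 - P) * X * (Xᴴ * (1 - P))) = tau ((1 - P) * (X * Xᴴ)) := by
      rw [← Matrix.mul_assoc, tau_comm, ← Matrix.mul_assoc, ← Matrix.mul_assoc, h.compl.idem,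
        Matrix.mul_assoc]
    rw [e1, e2, sub_mul, one_mul, tau_sub]
    ring
  have h2 := hs_nonneg ((1 - P) * X)
  linarith

lemma hs_mul_right {P : Matrix ι ι ℂ} (h : IsPr P) (X : Matrix ι ι ℂ) : hs (X * P) ≤ hs X := by
  rw [← hs_conj (X * P), ← hs_conj X, conjTranspose_mul, h.herm]
  exact hs_mul_left h _

/-- functional calculus -/
noncomputable def F (f : ℝ → ℝ) (A : Matrix ι ι ℂ) : Matrix ι ι ℂ := cfc f A

lemma cont (f : ℝ → ℝ) (A : Matrix ι ι ℂ) : ContinuousOn f (spectrum ℝ A) :=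
  (Matrix.finite_real_spectrum (A := A)).continuousOn f

lemma F_mul (f g : ℝ → ℝ) (A : Matrix ι ι ℂ) : F (fun x => f x * g x) A = F f A * F g A :=
  cfc_mul f g A (cont f A) (cont g A)

lemma F_add (f g : ℝ → ℝ) (A : Matrix ι ι ℂ) : F (fun x => f x + g x) A = F f A + F g A :=
  cfc_add A f g (cont f A) (cont g A)

lemma F_sub (f g : ℝ → ℝ) (A : Matrix ι ι ℂ) : F (fun x => f x - g x) A = F f A - F g A :=
  cfc_sub f g A (cont f A) (cont g A)

lemma F_smul (c : ℝ) (f : ℝ → ℝ) (A : Matrix ι ι ℂ) : F (fun x => c * f x) A = c • F f A :=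
  cfc_const_mul c f A (cont f A)

lemma F_id {A : Matrix ι ι ℂ} (hA : A.IsHermitian) : F (fun x => x) A = A :=
  cfc_id' ℝ A hA

lemma F_one {A : Matrix ι ι ℂ} (hA : A.IsHermitian) : F (fun _ => 1) A = 1 := by
  have := cfc_const (1 : ℝ) A hA
  unfold F
  rw [this]; simp

lemma F_congr {f g : ℝ → ℝ} {A : Matrix ι ι ℂ} (h : ∀ x ∈ spectrum ℝ A, f x = g x) :
    F f A = F g A := cfc_congr h

lemma F_herm (f : ℝ → ℝ) (A : Matrix ι ι ℂ) : (F f A)ᴴ = F f A := cfc_predicate f A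

lemma F_psd {f : ℝ → ℝ} {A : Matrix ι ι ℂ} (h : ∀ x ∈ spectrum ℝ A, 0 ≤ f x) :
    (F f A).PosSemidef := by
  have := cfc_nonneg (a := A) h
  exact this.posSemidef

lemma tau_mul_psd {X Y : Matrix ι ι ℂ} (hX : X.PosSemidef) (hY : Y.PosSemidef) :
    0 ≤ tau (X * Y) := by
  have h1 : CFC.sqrt Y * CFC.sqrt Y = Y := CFC.sqrt_mul_sqrt_self Y hY.nonneg
  have h2 : (CFC.sqrt Y).PosSemidef := (CFC.sqrt_nonneg Y).posSemidef
  have h3 := tau_nonneg (hX.mul_mul_conjTranspose_same (CFC.sqrt Y))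
  rw [h2.1.eq, tau_comm, ← Matrix.mul_assoc, h1, tau_comm] at h3
  exact h3

/-- monotonicity of the functional calculus under a weighted trace -/
lemma tau_mul_F_mono {X A : Matrix ι ι ℂ} (hX : X.PosSemidef) {f g : ℝ → ℝ}
    (h : ∀ x ∈ spectrum ℝ A, f x ≤ g x) : tau (X * F f A) ≤ tau (X * F g A) := by
  have h1 : (F (fun x => g x - f x) A).PosSemidef := F_psd (fun x hx => sub_nonneg.2 (h x hx))
  have h2 := tau_mul_psd hX h1
  rw [F_sub, mul_sub, tau_sub] at h2
  linarith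

lemma tau_F_mono {A : Matrix ι ι ℂ} {f g : ℝ → ℝ}
    (h : ∀ x ∈ spectrum ℝ A, f x ≤ g x) : tau (F f A) ≤ tau (F g A) := by
  have := tau_mul_F_mono (X := 1) Matrix.PosSemidef.one h
  simpa using this

lemma spec_nonneg {A : Matrix ι ι ℂ} (hA : A.PosSemidef) {x : ℝ} (hx : x ∈ spectrum ℝ A) :
    0 ≤ x := spectrum_nonneg_of_nonneg hA.nonneg hx

lemma spec_le_one {A : Matrix ι ι ℂ} (hA : (1 - A).PosSemidef) {x : ℝ}
    (hx : x ∈ spectrum ℝ A) : x ≤ 1 := by
  have h1 : 1 - x ∈ spectrum ℝ (1 - A) := by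
    have hH : A.IsHermitian := by
      have := Matrix.isHermitian_one.sub hA.1
      simpa using this
    have e : F (fun x => 1 - x) A = 1 - A := by
      rw [F_sub (fun _ => 1) (fun x => x), F_one hH, F_id hH]
    have h2 := cfc_map_spectrum (R := ℝ) (fun x : ℝ => 1 - x) A hH (cont _ A)
    change spectrum ℝ (F (fun x => 1 - x) A) = _ at h2
    rw [e] at h2
    rw [h2]
    exact ⟨x, hx, rfl⟩
  linarith [spec_nonneg hA h1]

end Pool.Agent.TH789.MT
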