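import Pool.Agent.TH789.MT.Step

set_option autoImplicit false
set_option linter.unusedSectionVars false

namespace Pool.Agent.TH789.MT

open Matrix
open scoped ComplexOrder MatrixOrder

variable {ι : Type*} [Fintype ι] [DecidableEq ι]
variable {κ : Type*} [Fintype κ] [DecidableEq κ]

/-- mutually orthogonal projections -/
structure OrthFam (W : κ → Matrix ι ι ℂ) : Prop where
  pr : ∀ i, IsPr (W i)
  orth : ∀ i j, i ≠ j → W i * W j = 0

lemma OrthFam.mul_sum {W : κ → Matrix ι ι ℂ} (h : OrthFam W) (s : Finset κ) (i : κ) :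
    W i * ∑ j ∈ s, W j = if i ∈ s then W i else 0 := by
  rw [Finset.mul_sum]
  have : ∀ j ∈ s, W i * W j = if i = j then W i else 0 := by
    intro j _
    split_ifs with hij
    · subst hij; exact (h.pr i).idem
    · exact h.orth i j hij
  rw [Finset.sum_congr rfl this, Finset.sum_ite_eq]

lemma OrthFam.sum {W : κ → Matrix ι ι ℂ} (h : OrthFam W) (s : Finset κ) :
    IsPr (∑ i ∈ s, W i) := by
  refine ⟨?_, ?_⟩
  · rw [conjTranspose_sum]
    exact Finset.sum_congr rfl fun i _ => (h.pr i).herm
  · rw [Finset.sum_mul]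
    refine Finset.sum_congr rfl fun i hi => ?_
    rw [h.mul_sum, if_pos hi]

lemma ov1 {P Q W : Matrix ι ι ℂ} (hP : IsPr P) (hQ : IsPr Q) (hW : IsPr W) :
    tau (P * W) ≤ 2 * tau (P * Q) + 2 * hs (Q - W) := by
  have e : P * W = P * Q + P * (-(Q - W)) := by
    rw [← mul_add]; congr 1; abel
  rw [hP.tau_mul hW, hP.tau_mul hQ, e]
  refine (hs_add_le _ _).trans ?_
  have := hs_mul_left hP (-(Q - W))
  rw [hs_neg] at this
  linarith

lemma ov2 {P Q W : Matrix ι ι ℂ} (hP : IsPr P) (hQ : IsPr Q) (hW : IsPr W) :
    tau (P * W) ≤ 2 * tau (P * Q) + 2 * tau (W * (1 - Q)) := by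
  have e : P * W = P * Q * W + P * ((1 - Q) * W) := by
    rw [Matrix.mul_assoc, ← mul_add, ← add_mul]
    congr 1
    have : Q + (1 - Q) = (1 : Matrix ι ι ℂ) := by abel
    rw [this, one_mul]
  rw [hP.tau_mul hW, hP.tau_mul hQ, e, tau_comm W, hQ.compl.tau_mul hW]
  refine (hs_add_le _ _).trans ?_
  have h1 := hs_mul_right hW (P * Q)
  have h2 := hs_mul_left hP ((1 - Q) * W)
  linarith

/-- **One level.** Mutually orthogonal projections `W i`, nearly below `P i`, are extended to
mutually orthogonal projections near the `P i`, one index at a time. -/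
lemma step (P W : κ → Matrix ι ι ℂ) (hP : ∀ i, IsPr (P i)) (hW : OrthFam W) (T : ℝ)
    (hT : 0 ≤ T) (hd : ∀ i, tau (W i * (1 - P i)) ≤ T)
    (hov : ∀ i j, i ≠ j → tau (P i * P j) ≤ T) (s : Finset κ) :
    ∃ W' : κ → Matrix ι ι ℂ, OrthFam W' ∧ (∀ i, W i * W' i = W i) ∧
      (∀ i, i ∉ s → W' i = W i) ∧
      ∀ i ∈ s, hs (P i - W' i) ≤ (20 * (Fintype.card κ : ℝ)) ^ s.card * T := by
  induction s using Finset.induction_on with
  | empty =>
    exact ⟨W, hW, fun i => (hW.pr i).idem, fun _ _ => rfl, fun i hi => absurd hi (by simp)⟩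
  | insert a s ha ih =>
    obtain ⟨W', h1, h2, h3, h4⟩ := ih
    have hcard : (1 : ℝ) ≤ Fintype.card κ := by
      have : 0 < Fintype.card κ := Fintype.card_pos_iff.2 ⟨a⟩
      exact_mod_cast this
    set B : ℝ := 20 * (Fintype.card κ : ℝ) with hB
    have hB1 : 1 ≤ B := by rw [hB]; linarith
    set E : ℝ := B ^ s.card * T with hE
    have hTE : T ≤ E := by
      rw [hE]
      have := one_le_pow₀ (n := s.card) hB1
      nlinarith
    have hSp : IsPr (∑ j ∈ Finset.univ.erase a, W' j) := h1.sum _
    have hWS : W' a * ∑ j ∈ Finset.univ.erase a, W' j = 0 := by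
      rw [h1.mul_sum, if_neg (by simp)]
    obtain ⟨N, hN, hNS, hWN, hNe⟩ := update (hP a) (h1.pr a) hSp hWS
    have hNj : ∀ j, j ≠ a → N * W' j = 0 := by
      intro j hj
      have e : W' j = (∑ k ∈ Finset.univ.erase a, W' k) * W' j := by
        have h5 := h1.mul_sum (Finset.univ.erase a) j
        rw [if_pos (by simp [hj])] at h5
        have h6 := congrArg conjTranspose h5
        rw [conjTranspose_mul, hSp.herm, (h1.pr j).herm] at h6
        exact h6.symm
      rw [e, ← Matrix.mul_assoc, hNS, Matrix.zero_mul]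
    refine ⟨Function.update W' a N, ⟨?_, ?_⟩, ?_, ?_, ?_⟩
    · intro i
      by_cases hi : i = a
      · subst hi; simpa using hN
      · simpa [hi] using h1.pr i
    · intro i j hij
      by_cases hi : i = a
      · subst hi
        have hj : j ≠ i := Ne.symm hij
        simp only [Function.update_self, ne_eq, hj, not_false_eq_true, Function.update_of_ne]
        exact hNj j hj
      · by_cases hj : j = a
        · subst hj
          simp only [Function.update_self, ne_eq, hi, not_false_eq_true, Function.update_of_ne]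
          exact hN.comm_zero (h1.pr i) (hNj i hi)
        · simp only [ne_eq, hi, hj, not_false_eq_true, Function.update_of_ne]
          exact h1.orth i j hij
    · intro i
      by_cases hi : i = a
      · subst hi
        simp only [Function.update_self]
        have e := h3 i ha
        rw [← e]; exact hWN
      · simp only [ne_eq, hi, not_false_eq_true, Function.update_of_ne]
        exact h2 i
    · intro i hi
      rw [Finset.mem_insert, not_or] at hi
      simp only [ne_eq, hi.1, not_false_eq_true, Function.update_of_ne]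
      exact h3 i hi.2
    · intro i hi
      rw [Finset.card_insert_of_notMem ha, pow_succ]
      have hBE : B ^ s.card * B * T = B * E := by rw [hE]; ring
      rw [hBE]
      by_cases hia : i = a
      · subst hia
        simp only [Function.update_self]
        refine hNe.trans ?_
        have h5 : tau (P i * ∑ j ∈ Finset.univ.erase i, W' j) ≤
            ∑ _j ∈ Finset.univ.erase i, 4 * E := by
          rw [Finset.mul_sum, tau_sum]
          apply Finset.sum_le_sum
          intro j hj
          have hji : j ≠ i := (Finset.mem_erase.1 hj).1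
          have h6 := hov i j (Ne.symm hji)
          by_cases hjs : j ∈ s
          · have h7 := ov1 (hP i) (hP j) (h1.pr j)
            have h8 := h4 j hjs
            linarith
          · have h7 := ov2 (hP i) (hP j) (h1.pr j)
            have h8 := hd j
            rw [← h3 j hjs] at h8
            linarith
        rw [Finset.sum_const, Finset.card_erase_of_mem (Finset.mem_univ _), Finset.card_univ,
          nsmul_eq_mul] at h5
        have h6 := hd i
        rw [← h3 i ha] at h6
        have h7 : ((Fintype.card κ - 1 : ℕ) : ℝ) = (Fintype.card κ : ℝ) - 1 := by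
          have : 1 ≤ Fintype.card κ := by exact_mod_cast hcard
          push_cast [Nat.cast_sub this]; ring
        rw [h7] at h5
        rw [hB]
        nlinarith
      · simp only [ne_eq, hia, not_false_eq_true, Function.update_of_ne]
        have his : i ∈ s := by
          rcases Finset.mem_insert.1 hi with h | h
          · exact absurd h hia
          · exact h
        have h5 := h4 i his
        have : 0 ≤ E := hT.trans hTE
        nlinarith

/-- The constant of one level. -/
noncomputable def Kc (n : ℕ) : ℝ := n * (20 * (n : ℝ)) ^ n + 1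

lemma Kc_ge (n : ℕ) : 1 ≤ Kc n := by
  unfold Kc
  have : (0 : ℝ) ≤ n * (20 * (n : ℝ)) ^ n := by positivity
  linarith

lemma step_all (P W : κ → Matrix ι ι ℂ) (hP : ∀ i, IsPr (P i)) (hW : OrthFam W) (T : ℝ)
    (hT : 0 ≤ T) (hd : ∀ i, tau (W i * (1 - P i)) ≤ T)
    (hov : ∀ i j, i ≠ j → tau (P i * P j) ≤ T) :
    ∃ W' : κ → Matrix ι ι ℂ, OrthFam W' ∧ (∀ i, W i * W' i = W i) ∧
      ∑ i, hs (P i - W' i) ≤ Kc (Fintype.card κ) * T := by
  obtain ⟨W', h1, h2, -, h4⟩ := step P W hP hW T hT hd hov Finset.univ
  refine ⟨W', h1, h2, ?_⟩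
  refine (Finset.sum_le_sum fun i hi => h4 i hi).trans ?_
  rw [Finset.sum_const, Finset.card_univ, nsmul_eq_mul]
  unfold Kc
  nlinarith

/-- **All levels.** -/
lemma levels (Q : ℕ → κ → Matrix ι ι ℂ) (hQ : ∀ m i, IsPr (Q m i)) (hQ0 : ∀ i, Q 0 i = 0)
    (hmono : ∀ m i, Q m i * Q (m + 1) i = Q m i) (ε : ℕ → ℝ)
    (hε0 : ∀ m, 0 ≤ ε m) (hε : ∀ m i j, i ≠ j → tau (Q m i * Q m j) ≤ ε m) (M : ℕ) :
    ∃ (W : κ → Matrix ι ι ℂ) (D : ℕ → ℝ), OrthFam W ∧ D 0 = 0 ∧ (∀ m, 0 ≤ D m) ∧
      (∀ m < M, D (m + 1) ≤ Kc (Fintype.card κ) * (D m + ε (m + 1))) ∧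
      (∀ m ≤ M, ∑ i, tau (Q m i * (1 - W i)) ≤ D m) ∧ ∑ i, hs (Q M i - W i) ≤ D M := by
  induction M with
  | zero =>
    refine ⟨fun _ => 0, fun _ => 0, ⟨fun _ => IsPr.zero, fun _ _ _ => by simp⟩, rfl,
      fun _ => le_rfl, fun m hm => absurd hm (by omega), ?_, ?_⟩
    · intro m hm
      obtain rfl : m = 0 := by omega
      simp [hQ0, tau_zero]
    · simp [hQ0, hs, tau_zero]
  | succ M ih =>
    obtain ⟨W, D, h1, h2, h3, h4, h5, h6⟩ := ih
    have hT : 0 ≤ D M + ε (M + 1) := add_nonneg (h3 M) (hε0 _)
    have hd : ∀ i, tau (W i * (1 - Q (M + 1) i)) ≤ D M + ε (M + 1) := by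
      intro i
      have e1 : tau (W i * (1 - Q (M + 1) i)) ≤ tau (W i * (1 - Q M i)) := by
        have := (h1.pr i).tau_mul_nonneg ((hQ M i).sub_of (hQ (M + 1) i) (hmono M i))
        rw [mul_sub, tau_sub] at this
        rw [mul_sub, mul_sub, tau_sub, tau_sub]
        linarith
      have e2 : tau (W i * (1 - Q M i)) ≤ hs (Q M i - W i) := by
        have e3 : hs (Q M i - W i) = tau (W i * (1 - Q M i)) + tau (Q M i * (1 - W i)) := by
          unfold hs
          rw [conjTranspose_sub, (hQ M i).herm, (h1.pr i).herm, mul_sub, sub_mul, sub_mul,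
            (hQ M i).idem, (h1.pr i).idem, tau_sub, tau_sub, tau_sub, mul_sub, mul_sub, tau_sub,
            tau_sub, mul_one, mul_one]
          ring
        have := (hQ M i).tau_mul_nonneg (h1.pr i).compl
        linarith
      have e3 : hs (Q M i - W i) ≤ ∑ i, hs (Q M i - W i) :=
        Finset.single_le_sum (f := fun i => hs (Q M i - W i)) (fun i _ => hs_nonneg _)
          (Finset.mem_univ i)
      have := hε0 (M + 1)
      linarith
    have hov : ∀ i j, i ≠ j → tau (Q (M + 1) i * Q (M + 1) j) ≤ D M + ε (M + 1) := by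
      intro i j hij
      have := hε (M + 1) i j hij
      have := h3 M
      linarith
    obtain ⟨W', g1, g2, g3⟩ := step_all (Q (M + 1)) W (hQ (M + 1)) h1 _ hT hd hov
    refine ⟨W', Function.update D (M + 1) (Kc (Fintype.card κ) * (D M + ε (M + 1))), g1, ?_, ?_,
      ?_, ?_, ?_⟩
    · rw [Function.update_of_ne (by omega)]; exact h2
    · intro m
      by_cases hm : m = M + 1
      · subst hm
        rw [Function.update_self]
        exact mul_nonneg (zero_le_one.trans (Kc_ge _)) hT
      · rw [Function.update_of_ne hm]; exact h3 m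
    · intro m hm
      by_cases hm' : m = M
      · subst hm'
        rw [Function.update_self, Function.update_of_ne (by omega)]
      · rw [Function.update_of_ne (by omega), Function.update_of_ne (by omega)]
        exact h4 m (by omega)
    · intro m hm
      by_cases hm' : m = M + 1
      · subst hm'
        rw [Function.update_self]
        refine le_trans (Finset.sum_le_sum fun i _ => ?_) g3
        have e3 : hs (Q (M + 1) i - W' i) =
            tau (W' i * (1 - Q (M + 1) i)) + tau (Q (M + 1) i * (1 - W' i)) := by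
          unfold hs
          rw [conjTranspose_sub, (hQ (M + 1) i).herm, (g1.pr i).herm, mul_sub, sub_mul, sub_mul,
            (hQ (M + 1) i).idem, (g1.pr i).idem, tau_sub, tau_sub, tau_sub, mul_sub, mul_sub,
            tau_sub, tau_sub, mul_one, mul_one]
          ring
        have := (g1.pr i).tau_mul_nonneg (hQ (M + 1) i).compl
        linarith
      · rw [Function.update_of_ne hm']
        refine le_trans (Finset.sum_le_sum fun i _ => ?_) (h5 m (by omega))
        have := (hQ m i).tau_mul_nonneg ((h1.pr i).sub_of (g1.pr i) (g2 i))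
        rw [mul_sub, tau_sub] at this
        rw [mul_sub, mul_sub, tau_sub, tau_sub]
        linarith
    · rw [Function.update_self]; exact g3

end Pool.Agent.TH789.MT
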