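import Pool.Agent.TH789.MT.Base

set_option autoImplicit false
set_option linter.unusedSectionVars false

namespace Pool.Agent.TH789.MT

open Matrix
open scoped ComplexOrder MatrixOrder

variable {ι : Type*} [Fintype ι] [DecidableEq ι]

lemma IsPr.comm_zero {P Q : Matrix ι ι ℂ} (h : IsPr P) (h' : IsPr Q) (h0 : P * Q = 0) :
    Q * P = 0 := by
  have := congrArg conjTranspose h0
  rwa [conjTranspose_mul, h.herm, h'.herm, conjTranspose_zero] at this

lemma IsPr.one : IsPr (1 : Matrix ι ι ℂ) := ⟨by simp, by simp⟩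

/-- Rounding: the spectral projection of `0 ≤ G ≤ 1` for the part of the spectrum above `1/2`. -/
lemma rounding {G : Matrix ι ι ℂ} (h0 : G.PosSemidef) (h1 : (1 - G).PosSemidef) :
    ∃ N : Matrix ι ι ℂ, IsPr N ∧ (∀ U : Matrix ι ι ℂ, U * G = G → U * N = N) ∧
      tau (G * (1 - N)) + tau (N * (1 - G)) ≤ 2 * tau (G * (1 - G)) := by
  set e : ℝ → ℝ := fun x => if 1 / 2 ≤ x then 1 else 0 with he
  have hH : G.IsHermitian := h0.1
  refine ⟨F e G, ⟨F_herm _ _, ?_⟩, ?_, ?_⟩
  · rw [← F_mul]
    congr 1
    funext x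
    simp only [he]
    split_ifs <;> simp
  · intro U hU
    have h2 : F e G = G * F (fun x => if 1 / 2 ≤ x then x⁻¹ else 0) G := by
      conv_rhs => enter [1]; rw [← F_id hH]
      rw [← F_mul]
      congr 1
      funext x
      simp only [he]
      split_ifs with hx
      · have : x ≠ 0 := by
          intro h; rw [h] at hx; norm_num at hx
        rw [mul_inv_cancel₀ this]
      · simp
    rw [h2, ← Matrix.mul_assoc, hU]
  · have e1 : G * (1 - F e G) = F (fun x => x * (1 - e x)) G := by
      rw [F_mul, F_id hH, F_sub (fun _ => 1) e, F_one hH]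
    have e2 : F e G * (1 - G) = F (fun x => e x * (1 - x)) G := by
      rw [F_mul, F_sub (fun _ => 1) (fun x => x), F_one hH, F_id hH]
    have e3 : 2 * tau (G * (1 - G)) = tau (F (fun x => x * (1 - x) + x * (1 - x)) G) := by
      rw [F_add, F_mul, F_sub (fun _ => 1) (fun x => x), F_one hH, F_id hH, tau_add]
      ring
    rw [e1, e2, e3, ← tau_add, ← F_add]
    apply tau_F_mono
    intro x hx
    have h2 := spec_nonneg h0 hx
    have h3 := spec_le_one h1 hx
    simp only [he]
    split_ifs with h4
    · nlinarith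
    · push Not at h4
      nlinarith

/-- **Update lemma.** -/
lemma update {P W S : Matrix ι ι ℂ} (hP : IsPr P) (hW : IsPr W) (hS : IsPr S)
    (hWS : W * S = 0) :
    ∃ W' : Matrix ι ι ℂ, IsPr W' ∧ W' * S = 0 ∧ W * W' = W ∧
      hs (P - W') ≤ 5 * (tau (P * S) + tau (W * (1 - P))) := by
  have hSW := hW.comm_zero hS hWS
  have hWS' : IsPr (W + S) := hW.add hS hWS
  obtain ⟨U, hU⟩ : ∃ U : Matrix ι ι ℂ, U = 1 - (W + S) := ⟨_, rfl⟩
  have hUp : IsPr U := by rw [hU]; exact hWS'.compl
  have hWU : W * U = 0 := by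
    rw [hU, mul_sub, mul_add, hW.idem, hWS]; simp
  have hUW : U * W = 0 := hW.comm_zero hUp hWU
  have hSU : S * U = 0 := by
    rw [hU, mul_sub, mul_add, hS.idem, hSW]; simp
  obtain ⟨G, hG⟩ : ∃ G : Matrix ι ι ℂ, G = U * P * U := ⟨_, rfl⟩
  have hG0 : G.PosSemidef := by
    have := hP.psd.mul_mul_conjTranspose_same U
    rwa [hUp.herm, ← hG] at this
  have hG1 : (1 - G).PosSemidef := by
    have e : 1 - G = (1 - U) + U * (1 - P) * U := by
      rw [hG, Matrix.mul_sub, Matrix.sub_mul, Matrix.mul_one, hUp.idem]; abel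
    rw [e]
    have := hP.compl.psd.mul_mul_conjTranspose_same U
    rw [hUp.herm] at this
    exact hUp.compl.psd.add this
  obtain ⟨N, hN, hNU, hNG⟩ := rounding hG0 hG1
  have hUN : U * N = N := hNU U (by rw [hG, ← Matrix.mul_assoc, ← Matrix.mul_assoc, hUp.idem])
  have hNU' : N * U = N := by
    have := congrArg conjTranspose hUN
    rwa [conjTranspose_mul, hN.herm, hUp.herm] at this
  have hWN : W * N = 0 := by rw [← hUN, ← Matrix.mul_assoc, hWU, Matrix.zero_mul]
  have hNS : N * S = 0 := by
    rw [← hNU', Matrix.mul_assoc, hS.comm_zero hUp hSU, Matrix.mul_zero]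
  refine ⟨W + N, hW.add hN hWN, ?_, ?_, ?_⟩
  · rw [add_mul, hWS, hNS, add_zero]
  · rw [mul_add, hW.idem, hWN, add_zero]
  · -- traces
    have hPG : tau (P * U) = tau G := by
      rw [hG, tau_comm (U * P) U, ← Matrix.mul_assoc, hUp.idem, tau_comm]
    have hPN : tau (P * N) = tau (G * N) := by
      conv_lhs => rw [← hUN, ← hNU', ← Matrix.mul_assoc, ← Matrix.mul_assoc, tau_comm,
        ← Matrix.mul_assoc, ← Matrix.mul_assoc]
      rw [hG]
    have hGG : tau (G * (1 - G)) = hs ((1 - P) * U * P) := by
      have e1 : tau (G * G) = tau (P * U * P * U) := by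
        rw [hG]
        calc tau (U * P * U * (U * P * U)) = tau (U * (P * U * U * P * U)) := by
              simp only [Matrix.mul_assoc]
          _ = tau (P * U * U * P * U * U) := by rw [tau_comm]
          _ = tau (P * (U * U) * P * (U * U)) := by simp only [Matrix.mul_assoc]
          _ = tau (P * U * P * U) := by rw [hUp.idem]
      have e2 : hs ((1 - P) * U * P) = tau ((1 - P) * U * P * U) := by
        unfold hs
        rw [conjTranspose_mul, conjTranspose_mul, hP.herm, hUp.herm, hP.compl.herm]
        calc tau ((1 - P) * U * P * (P * (U * (1 - P))))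
            = tau (((1 - P) * U * (P * P) * U) * (1 - P)) := by simp only [Matrix.mul_assoc]
          _ = tau ((1 - P) * ((1 - P) * U * (P * P) * U)) := by rw [tau_comm]
          _ = tau (((1 - P) * (1 - P)) * U * (P * P) * U) := by simp only [Matrix.mul_assoc]
          _ = tau ((1 - P) * U * P * U) := by rw [hP.idem, hP.compl.idem]
      rw [mul_sub, tau_sub, mul_one, e1, e2, sub_mul, sub_mul, sub_mul, one_mul, tau_sub, ← hG]
    have hoff : hs ((1 - P) * U * P) ≤ 2 * tau (W * (1 - P)) + 2 * tau (P * S) := by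
      have e1 : (1 - P) * U * P = -((1 - P) * W * P + (1 - P) * S * P) := by
        rw [hU, mul_sub, mul_one, sub_mul, sub_mul 1 P P, hP.idem, one_mul, sub_self, mul_add,
          add_mul, zero_sub]
      rw [e1, hs_neg]
      have h1 : hs ((1 - P) * W * P) ≤ tau (W * (1 - P)) := by
        refine (hs_mul_right hP _).trans ?_
        rw [← hP.compl.tau_mul hW, tau_comm]
      have h2 : hs ((1 - P) * S * P) ≤ tau (P * S) := by
        rw [Matrix.mul_assoc]
        refine (hs_mul_left hP.compl _).trans ?_
        rw [← hS.tau_mul hP, tau_comm]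
      have := hs_add_le ((1 - P) * W * P) ((1 - P) * S * P)
      linarith
    have hmain : hs (P - (W + N)) = tau (P * S) + tau (W * (1 - P)) +
        (tau (G * (1 - N)) + tau (N * (1 - G))) := by
      have e1 : hs (P - (W + N)) = tau P + tau (W + N) - 2 * tau (P * (W + N)) := by
        unfold hs
        rw [conjTranspose_sub, hP.herm, (hW.add hN hWN).herm, mul_sub, sub_mul, sub_mul,
          hP.idem, (hW.add hN hWN).idem, tau_sub, tau_sub, tau_sub, tau_comm (W + N) P]
        ring
      have e2 : tau P = tau (P * W) + tau (P * S) + tau (P * U) := by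
        rw [← tau_add, ← tau_add, ← mul_add, ← mul_add, hU]
        congr 1
        have : W + S + (1 - (W + S)) = (1 : Matrix ι ι ℂ) := by abel
        rw [this, mul_one]
      rw [e1, tau_add, mul_add, tau_add, mul_sub, tau_sub, mul_one, mul_sub, tau_sub, mul_one,
        mul_sub, tau_sub, mul_one, tau_comm W P, tau_comm N G, hPN]
      linarith
    rw [hmain]
    have := hNG
    rw [hGG] at this
    linarith

end Pool.Agent.TH789.MT
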